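import Mathlib

set_option autoImplicit false

namespace Pool.Agent.Results.MP_091b66_gt.Wijsman

open Set Filter Topology Metric TopologicalSpace

universe u

/-- The nonempty closed subsets of a metric space. -/
def Hyp (X : Type u) [MetricSpace X] : Type u := {A : Set X // IsClosed A ∧ A.Nonempty}

/-- The Wijsman topology: the weakest one making all maps `A ↦ d(x, A)` continuous. -/
noncomputable instance (X : Type u) [MetricSpace X] : TopologicalSpace (Hyp X) :=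
  TopologicalSpace.induced (fun (A : Hyp X) (x : X) => infDist x A.1) inferInstance

def PiBase {Y : Type u} [TopologicalSpace Y] (P : Set (Set Y)) : Prop :=
  (∀ V ∈ P, IsOpen V ∧ V.Nonempty) ∧ ∀ U, IsOpen U → U.Nonempty → ∃ V ∈ P, V ⊆ U

def Pseudocomplete (Y : Type u) [TopologicalSpace Y] : Prop :=
  (∀ U : Set Y, IsOpen U → U.Nonempty → ∃ V, IsOpen V ∧ V.Nonempty ∧ closure V ⊆ U) ∧
    ∃ P : ℕ → Set (Set Y), (∀ n, PiBase (P n)) ∧ ∀ V : ℕ → Set Y, (∀ n, V n ∈ P n) →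
      (∀ n, closure (V (n + 1)) ⊆ V n) → (⋂ n, V n).Nonempty

def Subcompact (Y : Type u) [TopologicalSpace Y] : Prop :=
  RegularSpace Y ∧ ∃ B : Set (Set Y), IsTopologicalBasis B ∧ ∀ F ⊆ B, F.Nonempty →
    (∀ s ∈ F, s.Nonempty) → (∀ s ∈ F, ∀ t ∈ F, ∃ w ∈ F, w ⊆ s ∩ t) →
    (∀ s ∈ F, ∃ t ∈ F, closure t ⊆ s) → (⋂₀ F).Nonempty

def BaseCompact (Y : Type u) [TopologicalSpace Y] : Prop :=
  RegularSpace Y ∧ ∃ B : Set (Set Y), IsTopologicalBasis B ∧ ∀ C ⊆ B,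
    (∀ T ⊆ C, T.Finite → (⋂₀ T).Nonempty) → (⋂ s ∈ C, closure s).Nonempty

section General

variable {X : Type u} [MetricSpace X]

lemma cont (x : X) : Continuous fun A : Hyp X => infDist x A.1 :=
  (continuous_apply x).comp
    (continuous_induced_dom (f := fun (A : Hyp X) (x : X) => infDist x A.1))

instance : RegularSpace (Hyp X) := regularSpace_induced _

def Av (M : Set (X × ℝ)) : Set X := {z | ∀ q ∈ M, q.2 < dist q.1 z}

def bs (L : Set (Set X)) (M : Set (X × ℝ)) : Set (Hyp X) :=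
  {A | (∀ W ∈ L, (A.1 ∩ W).Nonempty) ∧ ∀ q ∈ M, q.2 < infDist q.1 A.1}

lemma bs_open (L : Set (Set X)) (M : Set (X × ℝ)) (hL : L.Finite) (hM : M.Finite)
    (ho : ∀ W ∈ L, IsOpen W) : IsOpen (bs L M) := by
  rw [isOpen_iff_mem_nhds]
  rintro A ⟨h1, h2⟩
  refine Eventually.and ((hL.eventually_all).mpr fun W hW => ?_)
    ((hM.eventually_all).mpr fun q hq => ?_)
  · obtain ⟨a, ha, haW⟩ := h1 W hW
    obtain ⟨r, hr, hrW⟩ := Metric.isOpen_iff.mp (ho W hW) a haW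
    have : infDist a A.1 < r := by rw [infDist_zero_of_mem ha]; exact hr
    filter_upwards [(isOpen_lt (cont a) continuous_const).mem_nhds this] with A' hA'
    obtain ⟨z, hz, hd⟩ := (infDist_lt_iff A'.2.2).mp hA'
    exact ⟨z, hz, hrW (by rwa [mem_ball, dist_comm])⟩
  · exact (isOpen_lt continuous_const (cont q.1)).mem_nhds (h2 q hq)

lemma base (A : Hyp X) (U : Set (Hyp X)) (hU : U ∈ 𝓝 A) :
    ∃ S ⊆ A.1, S.Finite ∧ S.Nonempty ∧ ∃ ε > 0, ∃ M : Set (X × ℝ), M.Finite ∧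
      (∀ q ∈ M, ∀ a ∈ A.1, ∀ z, dist z a < ε → q.2 + ε ≤ dist q.1 z) ∧
      ∀ A' : Hyp X, (∀ a ∈ S, ∃ z ∈ A'.1, dist z a < ε) → (∀ q ∈ M, q.2 < infDist q.1 A'.1) →
        A' ∈ U := by
  rw [nhds_induced, mem_comap] at hU
  obtain ⟨V, hV, hVU⟩ := hU
  rw [nhds_pi, Filter.mem_pi] at hV
  obtain ⟨I, hI, s, hs, hIs⟩ := hV
  have h1 : ∀ᶠ δ in 𝓝[>] (0 : ℝ), ∀ x ∈ I, ball (infDist x A.1) δ ⊆ s x := by
    rw [hI.eventually_all]
    intro x _
    obtain ⟨r, hr, h⟩ := Metric.mem_nhds_iff.mp (hs x)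
    filter_upwards [Ioo_mem_nhdsGT hr] with δ hδ
    exact (ball_subset_ball hδ.2.le).trans h
  obtain ⟨δ, hδ1, hδ⟩ := (h1.and self_mem_nhdsWithin).exists
  have hδ : 0 < δ := hδ
  have h2 : ∀ x, ∃ a ∈ A.1, dist x a < infDist x A.1 + δ / 2 :=
    fun x => (infDist_lt_iff A.2.2).mp (by linarith)
  choose a ha1 ha2 using h2
  obtain ⟨a0, ha0⟩ := A.2.2
  refine ⟨insert a0 (a '' I), insert_subset ha0 (by rintro _ ⟨x, -, rfl⟩; exact ha1 x),
    (hI.image a).insert _, insert_nonempty _ _, δ / 2, half_pos hδ,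
    (fun x => (x, infDist x A.1 - δ)) '' I, hI.image _, ?_, fun A' h3 h4 => ?_⟩
  · rintro _ ⟨x, -, rfl⟩ b hb z hz
    have := infDist_le_dist_of_mem (x := x) hb
    have := dist_triangle x z b
    simp only
    linarith
  · apply hVU
    apply hIs
    intro x hx
    apply hδ1 x hx
    obtain ⟨z, hz, hd⟩ := h3 (a x) (Or.inr ⟨x, hx, rfl⟩)
    have b1 := h4 _ ⟨x, hx, rfl⟩
    have b2 := infDist_le_dist_of_mem (x := x) hz
    have b3 := dist_triangle_right x z (a x)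
    have b4 := ha2 x
    simp only at b1
    rw [mem_ball, Real.dist_eq, abs_lt]
    constructor <;> linarith

lemma KK (L : Set (Set X)) (M : Set (X × ℝ)) (hL : L.Finite) (A : Hyp X)
    (h1 : A.1 ⊆ closure (Av M)) (h2 : ∀ W ∈ L, ∃ a ∈ A.1, a ∈ closure (W ∩ Av M)) :
    A ∈ closure (bs L M) := by
  rw [mem_closure_iff_nhds]
  intro U hU
  obtain ⟨S, hS, hSf, hSn, ε, hε, N, -, hN, h⟩ := base A U hU
  have e1 : ∀ a : S, ∃ z ∈ Av M, dist a.1 z < ε :=
    fun a => Metric.mem_closure_iff.mp (h1 (hS a.2)) ε hε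
  have e2 : ∀ W : L, ∃ z ∈ W.1 ∩ Av M, ∃ a ∈ A.1, dist a z < ε := fun W => by
    obtain ⟨a, ha, h3⟩ := h2 W.1 W.2
    obtain ⟨z, hz, h4⟩ := Metric.mem_closure_iff.mp h3 ε hε
    exact ⟨z, hz, a, ha, h4⟩
  choose c c1 c2 using e1
  choose d d1 d2 using e2
  have := hSf.to_subtype
  have := hL.to_subtype
  have hf : (range c ∪ range d).Finite := (finite_range c).union (finite_range d)
  have hn : (range c ∪ range d).Nonempty :=
    ⟨c ⟨_, hSn.some_mem⟩, Or.inl ⟨_, rfl⟩⟩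
  refine ⟨⟨range c ∪ range d, hf.isClosed, hn⟩, h _ (fun a ha => ?_) (fun q hq => ?_),
    fun W hW => ⟨d ⟨W, hW⟩, Or.inr ⟨_, rfl⟩, (d1 ⟨W, hW⟩).1⟩, fun q hq => ?_⟩
  · exact ⟨c ⟨a, ha⟩, Or.inl ⟨_, rfl⟩, dist_comm a _ ▸ c2 ⟨a, ha⟩⟩
  · obtain ⟨z, hz, e⟩ := hf.isCompact.exists_infDist_eq_dist hn q.1
    have : q.2 + ε ≤ dist q.1 z := by
      rcases hz with ⟨a, rfl⟩ | ⟨W, rfl⟩
      · exact hN q hq a (hS a.2) _ (dist_comm a.1 _ ▸ c2 a)
      · obtain ⟨a, ha, h3⟩ := d2 W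
        exact hN q hq a ha _ (dist_comm a _ ▸ h3)
    show q.2 < infDist q.1 (range c ∪ range d)
    linarith
  · obtain ⟨z, hz, e⟩ := hf.isCompact.exists_infDist_eq_dist hn q.1
    show q.2 < infDist q.1 (range c ∪ range d)
    rw [e]
    rcases hz with ⟨a, rfl⟩ | ⟨W, rfl⟩
    · exact c1 a q hq
    · exact (d1 W).2 q hq

def Good (P : Set (Set X)) (L : Set (Set X)) (M : Set (X × ℝ)) : Prop :=
  L.Finite ∧ L.Nonempty ∧ L ⊆ P ∧ M.Finite ∧ ∀ W ∈ L, W.Nonempty ∧ W ⊆ Av M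

lemma K3 {P L L' : Set (Set X)} {M M' : Set (X × ℝ)} (hG : Good P L' M')
    (h : closure (bs L' M') ⊆ bs L M) (W : Set X) (hW : W ∈ L) : ∃ W' ∈ L', closure W' ⊆ W := by
  by_contra hc
  push Not at hc
  have e : ∀ W' : L', ∃ z ∈ closure W'.1, z ∉ W := fun W' => not_subset.mp (hc W'.1 W'.2)
  choose c c1 c2 using e
  have := hG.1.to_subtype
  have hn : (range c).Nonempty := ⟨c ⟨_, hG.2.1.some_mem⟩, _, rfl⟩
  have := h (KK L' M' hG.1 ⟨range c, (finite_range c).isClosed, hn⟩ (by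
    rintro _ ⟨W', rfl⟩
    exact closure_mono (hG.2.2.2.2 _ W'.2).2 (c1 W')) (fun W' hW' =>
      ⟨c ⟨W', hW'⟩, ⟨_, rfl⟩, by
        rw [inter_eq_left.mpr (hG.2.2.2.2 _ hW').2]; exact c1 ⟨W', hW'⟩⟩))
  obtain ⟨_, ⟨W', rfl⟩, h2⟩ := this.1 W hW
  exact c2 W' h2

lemma K5 {P L L' : Set (Set X)} {M M' : Set (X × ℝ)} (hG : Good P L' M')
    (h : closure (bs L' M') ⊆ bs L M) : closure (Av M') ⊆ Av M := by
  intro p hp q hq
  have e : ∀ W' : L', ∃ z, z ∈ W'.1 := fun W' => (hG.2.2.2.2 _ W'.2).1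
  choose c c1 using e
  have := hG.1.to_subtype
  have := h (KK L' M' hG.1 ⟨insert p (range c), ((finite_range c).insert p).isClosed,
    insert_nonempty _ _⟩ (by
    rintro _ (rfl | ⟨W', rfl⟩)
    · exact hp
    · exact subset_closure ((hG.2.2.2.2 _ W'.2).2 (c1 W'))) (fun W' hW' =>
      ⟨c ⟨W', hW'⟩, Or.inr ⟨_, rfl⟩, subset_closure
        ⟨c1 ⟨W', hW'⟩, (hG.2.2.2.2 _ hW').2 (c1 ⟨W', hW'⟩)⟩⟩))
  exact (this.2 q hq).trans_le (infDist_le_dist_of_mem (mem_insert _ _))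

lemma pc (h : Pseudocomplete X) : Pseudocomplete (Hyp X) := by
  obtain ⟨hq, P, hP, hc⟩ := h
  refine ⟨fun U hU ⟨A, hA⟩ => ?_, ?_⟩
  · obtain ⟨t, ht, h1, h2⟩ := exists_mem_nhds_isClosed_subset (hU.mem_nhds hA)
    exact ⟨interior t, isOpen_interior, ⟨A, mem_interior_iff_mem_nhds.mpr ht⟩,
      (closure_minimal interior_subset h1).trans h2⟩
  let P' : ℕ → Set (Set X) := fun n => {W | ∃ V : ℕ → Set X, (∀ i ≤ n, V i ∈ P i) ∧
    (∀ i < n, closure (V (i + 1)) ⊆ V i) ∧ V n = W}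
  have hP1 : ∀ n, P' n ⊆ P n := by
    rintro n _ ⟨V, h1, -, rfl⟩
    exact h1 n le_rfl
  have hP2 : ∀ n U, IsOpen U → U.Nonempty → ∃ V ∈ P' n, V ⊆ U := by
    intro n
    induction n with
    | zero =>
      intro U hU hn
      obtain ⟨V, hV, h⟩ := (hP 0).2 U hU hn
      exact ⟨V, ⟨fun _ => V, fun i hi => by rwa [Nat.le_zero.mp hi], by simp, rfl⟩, h⟩
    | succ n ih =>
      intro U hU hn
      obtain ⟨_, ⟨V, h1, h2, rfl⟩, h3⟩ := ih U hU hn
      obtain ⟨O, hO, hOn, hOc⟩ := hq (V n) ((hP n).1 _ (h1 n le_rfl)).1 ((hP n).1 _ (h1 n le_rfl)).2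
      obtain ⟨W, hW, hWO⟩ := (hP (n + 1)).2 O hO hOn
      refine ⟨W, ⟨fun i => if i ≤ n then V i else W, fun i hi => ?_, fun i hi => ?_, by simp⟩,
        hWO.trans (subset_closure.trans (hOc.trans h3))⟩
      · by_cases h4 : i ≤ n
        · simp only [h4, if_true]; exact h1 i h4
        · simp only [h4, if_false]
          rwa [show i = n + 1 by omega]
      · by_cases h4 : i + 1 ≤ n
        · simp only [h4, show i ≤ n by omega, if_true]; exact h2 i h4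
        · simp only [h4, show i ≤ n by omega, if_true, if_false]
          rw [show i = n by omega]
          exact (closure_mono hWO).trans hOc
  refine ⟨fun n => {Q | ∃ L M, Good (P' n) L M ∧ Q = bs L M}, fun n => ⟨?_, ?_⟩, ?_⟩
  · rintro _ ⟨L, M, hG, rfl⟩
    refine ⟨bs_open L M hG.1 hG.2.2.2.1 fun W hW => ((hP n).1 _ (hP1 n (hG.2.2.1 hW))).1, ?_⟩
    obtain ⟨W, hW⟩ := hG.2.1
    refine closure_nonempty_iff.mp ⟨⟨closure (Av M), isClosed_closure,
      ((hG.2.2.2.2 W hW).1.mono (hG.2.2.2.2 W hW).2).closure⟩, KK L M hG.1 _ subset_rfl ?_⟩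
    intro W hW
    obtain ⟨a, ha⟩ := (hG.2.2.2.2 W hW).1
    exact ⟨a, subset_closure ((hG.2.2.2.2 W hW).2 ha),
      subset_closure ⟨ha, (hG.2.2.2.2 W hW).2 ha⟩⟩
  · rintro U hU ⟨A, hA⟩
    obtain ⟨S, hS, hSf, hSn, ε, hε, M, hM, hN, h⟩ := base A U (hU.mem_nhds hA)
    choose c c1 c2 using fun a : X => hP2 n (ball a ε) isOpen_ball (nonempty_ball.mpr hε)
    refine ⟨bs (c '' S) M, ⟨_, _, ⟨hSf.image c, hSn.image c, ?_, hM, ?_⟩, rfl⟩,
      fun A' hA' => h A' (fun a ha => ?_) hA'.2⟩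
    · rintro _ ⟨a, -, rfl⟩; exact c1 a
    · rintro _ ⟨a, ha, rfl⟩
      refine ⟨((hP n).1 _ (hP1 n (c1 a))).2, fun z hz q hq => ?_⟩
      have := hN q hq a (hS ha) z (c2 a hz)
      linarith
    · obtain ⟨z, hz, hz2⟩ := hA'.1 _ ⟨a, ha, rfl⟩
      exact ⟨z, hz, c2 a hz2⟩
  · intro Q hQ hcl
    choose L M hG hQe using hQ
    have hcl' : ∀ n, closure (bs (L (n + 1)) (M (n + 1))) ⊆ bs (L n) (M n) :=
      fun n => by rw [← hQe, ← hQe]; exact hcl n
    have hAv : Antitone fun n => Av (M n) :=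
      antitone_nat_of_succ_le fun n => subset_closure.trans (K5 (hG (n + 1)) (hcl' n))
    have key : ∀ n, ∀ W ∈ L n, ∃ p ∈ W, ∀ m, p ∈ Av (M m) := by
      intro n W hW
      have st : ∀ k (W : L (n + k)), ∃ W' : L (n + (k + 1)), closure W'.1 ⊆ W.1 := fun k W => by
        obtain ⟨W', h1, h2⟩ := K3 (hG (n + k + 1)) (hcl' (n + k)) W.1 W.2
        exact ⟨⟨W', h1⟩, h2⟩
      choose f hf using st
      let T : (k : ℕ) → L (n + k) := fun k => Nat.rec ⟨W, hW⟩ (fun k t => f k t) k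
      obtain ⟨V, h1, h2, h3⟩ := (hG n).2.2.1 hW
      let V' : ℕ → Set X := fun i => if i ≤ n then V i else (T (i - n)).1
      have hV' : ∀ k, V' (n + k) = (T k).1 := by
        intro k
        by_cases h : k = 0
        · subst h; simp only [V', Nat.add_zero, le_rfl, if_true]; exact h3
        · simp only [V', show ¬ n + k ≤ n by omega, if_false]
          rw [Nat.add_sub_cancel_left]
      obtain ⟨p, hp⟩ := hc V' (fun i => by
        by_cases h : i ≤ n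
        · simp only [V', h, if_true]; exact h1 i h
        · obtain ⟨k, rfl⟩ := Nat.exists_eq_add_of_le (show n ≤ i by omega)
          rw [hV']
          exact hP1 _ ((hG _).2.2.1 (T k).2)) (fun i => by
        by_cases h : i < n
        · simp only [V', show i + 1 ≤ n from h, h.le, if_true]; exact h2 i h
        · obtain ⟨k, rfl⟩ := Nat.exists_eq_add_of_le (show n ≤ i by omega)
          rw [hV', Nat.add_assoc, hV']
          exact hf k (T k))
      have hp' : ∀ k, p ∈ (T k).1 := fun k => hV' k ▸ mem_iInter.mp hp (n + k)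
      exact ⟨p, hp' 0, fun m => hAv (Nat.le_add_left m n) (((hG _).2.2.2.2 _ (T m).2).2 (hp' m))⟩
    obtain ⟨W0, hW0⟩ := (hG 0).2.1
    obtain ⟨p0, -, hp0⟩ := key 0 W0 hW0
    refine ⟨⟨closure {p | ∀ m, p ∈ Av (M m)}, isClosed_closure, ⟨p0, subset_closure hp0⟩⟩,
      mem_iInter.mpr fun n => ?_⟩
    rw [hQe]
    refine hcl' n (KK _ _ (hG _).1 _ (closure_mono fun p hp => hp _) fun W hW => ?_)
    obtain ⟨p, h1, h2⟩ := key _ W hW
    exact ⟨p, subset_closure h2, subset_closure ⟨h1, h2 _⟩⟩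

lemma thin (B : Set (Set X)) (hB : IsTopologicalBasis B) : ∃ B' ⊆ B,
    (∀ x, ∀ ε > 0, ∃ W ∈ B', x ∈ W ∧ W ⊆ ball x ε) ∧
    ∀ V : ℕ → Set X, (∀ k, V k ∈ B') → StrictAnti V →
      ∀ ε > 0, ∃ k, ∀ a ∈ V k, ∀ b ∈ V k, dist a b < ε := by
  obtain ⟨lo, wf⟩ := exists_wellFoundedLT (Set X)
  let R : ℕ → X → Set (Set X) := fun n x =>
    {W | W ∈ B ∧ x ∈ W ∧ ∀ a ∈ W, ∀ b ∈ W, dist a b < 1 / ((n : ℝ) + 1)}
  have hR : ∀ n x, (R n x).Nonempty := by
    intro n x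
    have hp : (0 : ℝ) < 1 / ((n : ℝ) + 1) / 2 := by positivity
    obtain ⟨W, h1, h2, h3⟩ := hB.exists_subset_of_mem_open (mem_ball_self hp) (isOpen_ball (x := x))
    refine ⟨W, h1, h2, fun a ha b hb => ?_⟩
    have a1 := h3 ha
    have a2 := h3 hb
    rw [mem_ball] at a1 a2
    have := dist_triangle_right a b x
    linarith
  let w : ℕ → X → Set X := fun n x => wf.wf.min _ (hR n x)
  have w1 : ∀ n x, w n x ∈ R n x := fun n x => wf.wf.min_mem _ (hR n x)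
  have w2 : ∀ n x, ∀ W ∈ R n x, ¬ lo.lt W (w n x) := fun n x W h => wf.wf.not_lt_min _ h
  refine ⟨{W | ∃ n x, W = w n x}, ?_, fun x ε hε => ?_, fun V hV hs ε hε => ?_⟩
  · rintro _ ⟨n, x, rfl⟩; exact (w1 n x).1
  · obtain ⟨n, hn⟩ := exists_nat_one_div_lt hε
    exact ⟨w n x, ⟨n, x, rfl⟩, (w1 n x).2.1,
      fun z hz => ((w1 n x).2.2 z hz x (w1 n x).2.1).trans hn⟩
  · choose m x hmx using hV
    have h1 : ∀ n, ∀ᶠ k in atTop, m k ≠ n := by
      intro n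
      by_cases h : ∃ k, m k = n
      · obtain ⟨k, hk⟩ := h
        obtain ⟨_, ⟨k0, hk0, rfl⟩, hmin⟩ := wf.wf.has_min (V '' {k | m k = n}) ⟨_, k, hk, rfl⟩
        filter_upwards [eventually_gt_atTop k0] with j hj hjn
        have a1 := hmin _ ⟨j, hjn, rfl⟩
        have a2 : V k0 ∈ R n (x j) := by
          have b1 := w1 (m k0) (x k0)
          have b2 := w1 (m j) (x j)
          rw [← hmx] at b1 b2
          rw [show m k0 = n from hk0] at b1
          exact ⟨b1.1, (hs hj).le b2.2.1, b1.2.2⟩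
        have a3 := w2 n (x j) _ a2
        rw [← hjn, ← hmx] at a3
        rcases @lt_trichotomy _ lo (V j) (V k0) with h | h | h
        · exact a1 h
        · exact (hs hj).ne h
        · exact a3 h
      · exact Eventually.of_forall fun k hk => h ⟨k, hk⟩
    obtain ⟨N, hN⟩ := exists_nat_one_div_lt hε
    obtain ⟨k, hk⟩ := ((eventually_all_finset (Finset.range N)).mpr fun n _ => h1 n).exists
    have h2 : N ≤ m k := not_lt.mp fun h => hk _ (Finset.mem_range.mpr h) rfl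
    refine ⟨k, fun a ha b hb => ?_⟩
    rw [hmx] at ha hb
    refine ((w1 _ _).2.2 a ha b hb).trans_le (le_trans ?_ hN.le)
    exact Nat.one_div_le_one_div h2

lemma sc (h : Subcompact X) : Subcompact (Hyp X) := by
  obtain ⟨-, B, hB, hc⟩ := h
  obtain ⟨B', hB1, hB2, hB3⟩ := thin B hB
  refine ⟨inferInstance, {Q | ∃ L M, Good B' L M ∧ Q = bs L M},
    isTopologicalBasis_of_isOpen_of_nhds ?_ ?_, ?_⟩
  · rintro _ ⟨L, M, hG, rfl⟩
    exact bs_open L M hG.1 hG.2.2.2.1 fun W hW => hB.isOpen (hB1 (hG.2.2.1 hW))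
  · intro A U hA hU
    obtain ⟨S, hS, hSf, hSn, ε, hε, M, hM, hN, h⟩ := base A U (hU.mem_nhds hA)
    choose c c1 c2 c3 using fun a : X => hB2 a ε hε
    refine ⟨bs (c '' S) M, ⟨_, _, ⟨hSf.image c, hSn.image c, ?_, hM, ?_⟩, rfl⟩, ⟨?_, ?_⟩,
      fun A' hA' => h A' (fun a ha => ?_) hA'.2⟩
    · rintro _ ⟨a, -, rfl⟩; exact c1 a
    · rintro _ ⟨a, ha, rfl⟩
      refine ⟨⟨a, c2 a⟩, fun z hz q hq => ?_⟩
      have := hN q hq a (hS ha) z (c3 a hz)
      linarith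
    · rintro _ ⟨a, ha, rfl⟩
      exact ⟨a, hS ha, c2 a⟩
    · intro q hq
      have : q.2 + ε ≤ infDist q.1 A.1 :=
        (le_infDist A.2.2).mpr fun a ha => hN q hq a ha a (by simpa using hε)
      linarith
    · obtain ⟨z, hz, hz2⟩ := hA'.1 _ ⟨a, ha, rfl⟩
      exact ⟨z, hz, c3 a hz2⟩
  · intro F hF hFn _ hd hr
    have e : ∀ s : F, ∃ L M, Good B' L M ∧ s.1 = bs L M := fun s => hF s.2
    choose L M hG hQ using e
    have hr' : ∀ s t : F, ∃ w : F, closure (bs (L w) (M w)) ⊆ bs (L s) (M s) ∧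
        closure (bs (L w) (M w)) ⊆ bs (L t) (M t) := by
      intro s t
      obtain ⟨w, hw, h1⟩ := hd s.1 s.2 t.1 t.2
      obtain ⟨w', hw', h2⟩ := hr w hw
      refine ⟨⟨w', hw'⟩, ?_, ?_⟩ <;> rw [← hQ, ← hQ]
      · exact h2.trans (h1.trans inter_subset_left)
      · exact h2.trans (h1.trans inter_subset_right)
    let LL : Set (Set X) := ⋃ s, L s
    have hL1 : ∀ V ∈ LL, V ∈ B' ∧ V.Nonempty := by
      intro V hV
      obtain ⟨s, hs⟩ := mem_iUnion.mp hV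
      exact ⟨(hG s).2.2.1 hs, ((hG s).2.2.2.2 V hs).1⟩
    have hL2 : ∀ V ∈ LL, ∀ t, ∃ V' ∈ LL, closure V' ⊆ V ∧ V' ⊆ Av (M t) := by
      intro V hV t
      obtain ⟨s, hs⟩ := mem_iUnion.mp hV
      obtain ⟨w, h1, h2⟩ := hr' s t
      obtain ⟨V', h3, h4⟩ := K3 (hG w) h1 V hs
      exact ⟨V', mem_iUnion.mpr ⟨w, h3⟩, h4,
        ((hG w).2.2.2.2 V' h3).2.trans (subset_closure.trans (K5 (hG w) h2))⟩
    have key : ∀ W ∈ LL, ∃ p ∈ W, ∀ t, p ∈ Av (M t) := by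
      intro W hW
      by_cases h : ∃ V ∈ LL, V ⊆ W ∧ ∀ V' ∈ LL, closure V' ⊆ V → V' = V
      · obtain ⟨V, h1, h2, h3⟩ := h
        obtain ⟨p, hp⟩ := (hL1 V h1).2
        refine ⟨p, h2 hp, fun t => ?_⟩
        obtain ⟨V', a1, a2, a3⟩ := hL2 V h1 t
        exact a3 ((h3 V' a1 a2).symm ▸ hp)
      · push Not at h
        have st : ∀ V : {V // V ∈ LL ∧ V ⊆ W}, ∃ V' : {V // V ∈ LL ∧ V ⊆ W},
            closure V'.1 ⊆ V.1 ∧ V'.1 ≠ V.1 := fun V => by
          obtain ⟨V', a1, a2, a3⟩ := h V.1 V.2.1 V.2.2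
          exact ⟨⟨V', a1, subset_closure.trans (a2.trans V.2.2)⟩, a2, a3⟩
        choose f f1 f2 using st
        let T : ℕ → {V // V ∈ LL ∧ V ⊆ W} := fun k => f^[k] ⟨W, hW, subset_rfl⟩
        have hT : ∀ k, T (k + 1) = f (T k) := fun k => Function.iterate_succ_apply' _ _ _
        have hs : StrictAnti fun k => (T k).1 := strictAnti_nat_of_succ_lt fun k => by
          rw [hT]
          exact lt_of_le_of_ne (subset_closure.trans (f1 _)) (f2 _)
        obtain ⟨p, hp⟩ := hc (range fun k => (T k).1)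
          (by rintro _ ⟨k, rfl⟩; exact hB1 (hL1 _ (T k).2.1).1) (range_nonempty _)
          (by rintro _ ⟨k, rfl⟩; exact (hL1 _ (T k).2.1).2)
          (by
            rintro _ ⟨k, rfl⟩ _ ⟨j, rfl⟩
            exact ⟨_, ⟨max k j, rfl⟩, subset_inter (hs.antitone (le_max_left _ _))
              (hs.antitone (le_max_right _ _))⟩)
          (by
            rintro _ ⟨k, rfl⟩
            exact ⟨_, ⟨k + 1, rfl⟩, by simp only [hT]; exact f1 _⟩)
        have hp' : ∀ k, p ∈ (T k).1 := fun k => hp _ ⟨k, rfl⟩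
        refine ⟨p, hp' 0, fun t => ?_⟩
        obtain ⟨w, h1, -⟩ := hr' t t
        apply K5 (hG w) h1
        rw [Metric.mem_closure_iff]
        intro ε hε
        obtain ⟨k, hk⟩ := hB3 _ (fun k => (hL1 _ (T k).2.1).1) hs ε hε
        obtain ⟨V', a1, a2, a3⟩ := hL2 _ (T k).2.1 w
        obtain ⟨v, hv⟩ := (hL1 _ a1).2
        exact ⟨v, a3 hv, hk p (hp' k) v (a2 (subset_closure hv))⟩
    obtain ⟨s0, hs0⟩ := hFn
    obtain ⟨W0, hW0⟩ := (hG ⟨s0, hs0⟩).2.1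
    obtain ⟨p0, -, hp0⟩ := key W0 (mem_iUnion.mpr ⟨_, hW0⟩)
    refine ⟨⟨closure {p | ∀ t, p ∈ Av (M t)}, isClosed_closure, ⟨p0, subset_closure hp0⟩⟩,
      fun s hs => ?_⟩
    obtain ⟨w, h1, -⟩ := hr' ⟨s, hs⟩ ⟨s, hs⟩
    have e : s = bs (L ⟨s, hs⟩) (M ⟨s, hs⟩) := hQ ⟨s, hs⟩
    rw [e]
    refine h1 (KK _ _ (hG _).1 _ (closure_mono fun p hp => hp _) fun W hW => ?_)
    obtain ⟨p, h1, h2⟩ := key W (mem_iUnion.mpr ⟨_, hW⟩)
    exact ⟨p, subset_closure h2, subset_closure ⟨h1, h2 _⟩⟩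

lemma loc (A : Hyp X) (U : Set (Hyp X)) (hU : U ∈ 𝓝 A) :
    ∃ S ⊆ A.1, S.Finite ∧ ∃ ε > 0, ∀ A' : Hyp X, A'.1 ⊆ A.1 →
      (∀ a ∈ S, ∃ z ∈ A'.1, dist z a < ε) → A' ∈ U := by
  obtain ⟨S, hS, hSf, -, ε, hε, M, -, hN, h⟩ := base A U hU
  refine ⟨S, hS, hSf, ε, hε, fun A' h1 h2 => h A' h2 fun q hq => ?_⟩
  have : q.2 + ε ≤ infDist q.1 A'.1 :=
    (le_infDist A'.2.2).mpr fun a ha => hN q hq a (h1 ha) a (by simpa using hε)
  linarith

end General

abbrev ZZ : Type := ℕ → ℝ × ℕ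
abbrev DD : Type := ℕ × (ℝ → ℕ)

noncomputable def dz (x y : ZZ) : ℝ := @dist _ PiNat.dist x y

noncomputable def ff (y : DD) (x : ZZ) : ℝ :=
  2 + if (x (y.1 + 1)).2 ≤ y.2 (x 0).1 then 0 else (1 / 2) ^ (y.1 + 1)

def XX : Type := ZZ ⊕ DD

open Classical in
noncomputable def dd : XX → XX → ℝ
  | .inl x, .inl y => dz x y
  | .inl x, .inr y => ff y x
  | .inr y, .inl x => ff y x
  | .inr y, .inr y' => if y = y' then 0 else 1

lemma dz0 (x y : ZZ) : 0 ≤ dz x y := PiNat.dist_nonneg x y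
lemma dz1 (x y : ZZ) : dz x y ≤ 1 := PiNat.dist_le_one x y
lemma dzc (x y : ZZ) : dz x y = dz y x := PiNat.dist_comm x y

lemma pw (n : ℕ) : (0 : ℝ) < (1 / 2) ^ n ∧ ((1 : ℝ) / 2) ^ n ≤ 1 :=
  ⟨by positivity, pow_le_one₀ (by norm_num) (by norm_num)⟩

lemma ff2 (y : DD) (x : ZZ) : 2 ≤ ff y x ∧ ff y x ≤ 3 := by
  have := pw (y.1 + 1)
  unfold ff
  split_ifs <;> constructor <;> linarith [this.1, this.2]

lemma ffl (y : DD) (x x' : ZZ) : ff y x ≤ dz x x' + ff y x' := by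
  by_cases h : dz x x' < (1 / 2) ^ (y.1 + 1)
  · have e1 := PiNat.apply_eq_of_dist_lt h (le_refl (y.1 + 1))
    have e2 := PiNat.apply_eq_of_dist_lt h (Nat.zero_le (y.1 + 1))
    have := dz0 x x'
    unfold ff
    rw [e1, e2]
    linarith
  · have := (ff2 y x').1
    have := pw (y.1 + 1)
    have : ff y x ≤ 2 + (1 / 2) ^ (y.1 + 1) := by
      unfold ff
      split_ifs <;> linarith [this.1]
    linarith

noncomputable instance : MetricSpace XX where
  dist := dd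
  dist_self := by
    rintro (x | y)
    · exact PiNat.dist_self x
    · simp [dd]
  dist_comm := by
    rintro (x | y) (x' | y')
    · exact dzc x x'
    · rfl
    · rfl
    · by_cases h : y = y'
      · simp [dd, h]
      · simp [dd, h, Ne.symm h]
  dist_triangle := by
    rintro (x | y) (x' | y') (x'' | y'') <;> simp only [dd]
    · exact PiNat.dist_triangle x x' x''
    · exact ffl _ _ _
    · linarith [dz1 x x'', (ff2 y' x).1, (ff2 y' x'').1]
    · split_ifs with h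
      · rw [h]; linarith
      · linarith [(ff2 y' x).1, (ff2 y'' x).2]
    · linarith [ffl y x'' x', dzc x'' x']
    · split_ifs <;> linarith [(ff2 y x').1, (ff2 y'' x').1]
    · split_ifs with h
      · rw [h]; linarith
      · linarith [(ff2 y' x'').1, (ff2 y x'').2]
    · by_cases h1 : y = y' <;> by_cases h2 : y' = y'' <;> by_cases h3 : y = y'' <;> simp_all
  eq_of_dist_eq_zero := by
    rintro (x | y) (x' | y') h
    · exact congrArg Sum.inl (PiNat.eq_of_dist_eq_zero x x' h)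
    · have : ff y' x = 0 := h
      linarith [(ff2 y' x).1]
    · have : ff y x' = 0 := h
      linarith [(ff2 y x').1]
    · by_contra h1
      have h2 : y ≠ y' := fun e => h1 (congrArg Sum.inr e)
      have : dd (.inr y) (.inr y') = 0 := h
      simp [dd, h2] at this

def il (x : ZZ) : XX := Sum.inl x
def ir (y : DD) : XX := Sum.inr y

lemma near (x : ZZ) (p : XX) (n : ℕ) (h : dist (il x) p < (1 / 2) ^ n) :
    ∃ z, p = il z ∧ ∀ i ≤ n, x i = z i := by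
  rcases p with z | y
  · exact ⟨z, rfl, fun i hi => PiNat.apply_eq_of_dist_lt h hi⟩
  · have : ff y x < (1 / 2) ^ n := h
    linarith [(ff2 y x).1, (pw n).2]

lemma near2 (y : DD) (p : XX) (h : dist (ir y) p < 1) : p = ir y := by
  rcases p with z | y'
  · have : ff y z < 1 := h
    linarith [(ff2 y z).1]
  · have : dd (.inr y) (.inr y') < 1 := h
    by_contra h1
    have h2 : y ≠ y' := fun e => h1 (congrArg Sum.inr e.symm)
    simp [dd, h2] at this

lemma cyl (x z : ZZ) (n : ℕ) (h : ∀ i < n, z i = x i) : dist (il z) (il x) ≤ (1 / 2) ^ n :=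
  PiNat.mem_cylinder_iff_dist_le.mp (PiNat.mem_cylinder_iff.mpr h)

lemma bcX : BaseCompact XX := by
  classical
  let cy : ZZ → ℕ → Set XX := fun x n => il '' {z | ∀ i < n, z i = x i}
  refine ⟨inferInstance, {s | (∃ x n, s = cy x n) ∨ ∃ y, s = {ir y}},
    isTopologicalBasis_of_isOpen_of_nhds ?_ ?_, fun C hC h => ?_⟩
  · rintro _ (⟨x, n, rfl⟩ | ⟨y, rfl⟩) <;> rw [Metric.isOpen_iff]
    · rintro _ ⟨z, hz, rfl⟩
      refine ⟨_, (pw n).1, fun p hp => ?_⟩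
      obtain ⟨w, rfl, hw⟩ := near z p n (by rwa [mem_ball, dist_comm] at hp)
      exact ⟨w, fun i hi => (hw i hi.le).symm.trans (hz i hi), rfl⟩
    · rintro _ rfl
      exact ⟨1, one_pos, fun p hp => near2 y p (by rwa [mem_ball, dist_comm] at hp)⟩
  · rintro (x | y) U hU hUo
    · obtain ⟨ε, hε, h⟩ := Metric.isOpen_iff.mp hUo _ hU
      obtain ⟨n, hn⟩ := exists_pow_lt_of_lt_one hε (show (1 / 2 : ℝ) < 1 by norm_num)
      refine ⟨cy x n, Or.inl ⟨x, n, rfl⟩, ⟨x, fun _ _ => rfl, rfl⟩, ?_⟩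
      rintro _ ⟨z, hz, rfl⟩
      exact h ((cyl x z n hz).trans_lt hn)
    · exact ⟨{ir y}, Or.inr ⟨y, rfl⟩, rfl, singleton_subset_iff.mpr hU⟩
  · have h2 : ∀ s ∈ C, ∀ t ∈ C, (s ∩ t).Nonempty := fun s hs t ht => by
      have := h {s, t} (insert_subset hs (singleton_subset_iff.mpr ht)) (toFinite _)
      rwa [sInter_pair] at this
    by_cases h3 : ∃ y, {ir y} ∈ C
    · obtain ⟨y, hy⟩ := h3
      refine ⟨ir y, mem_iInter₂.mpr fun s hs => subset_closure ?_⟩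
      obtain ⟨_, h4, rfl⟩ := h2 s hs _ hy
      exact h4
    · let p : ZZ := fun k => if h : ∃ x : ZZ, ∃ n, cy x n ∈ C ∧ k < n then h.choose k else (0, 0)
      refine ⟨il p, mem_iInter₂.mpr fun s hs => subset_closure ?_⟩
      rcases hC hs with ⟨x, n, rfl⟩ | ⟨y, rfl⟩
      · refine ⟨p, fun k hk => ?_, rfl⟩
        have h4 : ∃ x : ZZ, ∃ n, cy x n ∈ C ∧ k < n := ⟨x, n, hs, hk⟩
        simp only [p, dif_pos h4]
        obtain ⟨n', h5, h6⟩ := h4.choose_spec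
        obtain ⟨_, ⟨w, hw, rfl⟩, w', hw', e⟩ := h2 _ hs _ h5
        have e' : w' = w := Sum.inl_injective e
        subst e'
        exact (hw' k h6).symm.trans (hw k hk)
      · exact absurd ⟨y, hs⟩ h3

def AA (P : ZZ → Prop) (n : ℕ) (hP : ∀ x z, (∀ i ≤ n, x i = z i) → P x → P z) (h : ∃ x, P x) :
    Hyp XX := ⟨il '' {x | P x}, by
  rw [← isOpen_compl_iff, Metric.isOpen_iff]
  rintro (x | y) hx
  · refine ⟨_, (pw n).1, fun p hp => ?_⟩
    obtain ⟨w, rfl, hw⟩ := near x p n (by rwa [mem_ball, dist_comm] at hp)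
    rintro ⟨w', h1, e⟩
    have e' : w' = w := Sum.inl_injective e
    subst e'
    exact hx ⟨x, hP w' x (fun i hi => (hw i hi).symm) h1, rfl⟩
  · refine ⟨1, one_pos, fun p hp => ?_⟩
    rw [near2 y p (by rwa [mem_ball, dist_comm] at hp)]
    exact hx, by
  obtain ⟨x, hx⟩ := h
  exact ⟨_, x, hx, rfl⟩⟩

lemma nbc : ¬ BaseCompact (Hyp XX) := by
  classical
  rintro ⟨-, B, hB, hc⟩
  let Z0 : Hyp XX := AA (fun _ => True) 0 (fun _ _ _ h => h) ⟨fun _ => (0, 0), trivial⟩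
  have h1 : ∀ i : ℝ, ∃ s ∈ B, s ⊆ {A | infDist (il fun _ => (i, 0)) A.1 < 3 / 4} ∧
      ∃ l : ℕ, ∃ S ⊆ Z0.1, ∀ A' : Hyp XX, A'.1 ⊆ Z0.1 →
        (∀ a ∈ S, ∃ z ∈ A'.1, dist z a ≤ (1 / 2) ^ l) → A' ∈ s := by
    intro i
    have hm : Z0 ∈ {A : Hyp XX | infDist (il fun _ => (i, 0)) A.1 < 3 / 4} := by
      show infDist _ _ < _
      rw [infDist_zero_of_mem (s := Z0.1) ⟨fun _ => (i, 0), trivial, rfl⟩]; norm_num
    obtain ⟨s, hs, h1, h2⟩ :=
      hB.exists_subset_of_mem_open hm (isOpen_lt (cont _) continuous_const)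
    obtain ⟨S, hS, -, ε, hε, h⟩ := loc Z0 s ((hB.isOpen hs).mem_nhds h1)
    obtain ⟨n, hn⟩ := exists_pow_lt_of_lt_one hε (show (1 / 2 : ℝ) < 1 by norm_num)
    refine ⟨s, hs, h2, n, S, hS, fun A' h3 h4 => h A' h3 fun a ha => ?_⟩
    obtain ⟨z, hz, h5⟩ := h4 a ha
    exact ⟨z, hz, h5.trans_lt hn⟩
  choose s s1 s2 l S s3 s4 using h1
  have h2 : ∃ n, ¬ {i | l i = n}.Countable := by
    by_contra h
    push Not at h
    apply Cardinal.not_countable_real
    exact (countable_iUnion h).mono fun i _ => mem_iUnion.mpr ⟨l i, rfl⟩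
  obtain ⟨n, hn⟩ := h2
  let A : (ℝ → ℕ) → Hyp XX := fun g => AA (fun x => g (x 0).1 < (x (n + 1)).2) (n + 1)
    (fun x z h h' => by rwa [← h 0 (Nat.zero_le _), ← h _ le_rfl])
    ⟨fun _ => (0, g 0 + 1), Nat.lt_succ_self _⟩
  have h3 : ∀ g, ∃ t ∈ B, t ⊆ {A' | 2 + (1 / 2) ^ (n + 2) < infDist (ir (n, g)) A'.1} ∧
      ∃ F : Set ℝ, F.Finite ∧ ∀ g', g ≤ g' → (∀ j ∈ F, g' j = g j) → A g' ∈ t := by
    intro g
    have hm : A g ∈ {A' : Hyp XX | 2 + (1 / 2) ^ (n + 2) < infDist (ir (n, g)) A'.1} := by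
      have : 2 + (1 / 2) ^ (n + 1) ≤ infDist (ir (n, g)) (A g).1 := by
        rw [le_infDist (A g).2.2]
        rintro _ ⟨x, hx, rfl⟩
        show _ ≤ ff (n, g) x
        unfold ff
        rw [if_neg (not_le.mpr hx)]
      have h4 := (pw (n + 1)).1
      show (2 : ℝ) + (1 / 2) ^ (n + 1 + 1) < infDist (ir (n, g)) (A g).1
      rw [pow_succ]
      linarith
    obtain ⟨t, ht, h4, h5⟩ :=
      hB.exists_subset_of_mem_open hm (isOpen_lt continuous_const (cont _))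
    obtain ⟨T, hT, hTf, ε, hε, h⟩ := loc (A g) t ((hB.isOpen ht).mem_nhds h4)
    refine ⟨t, ht, h5, (fun x : ZZ => (x 0).1) '' (il ⁻¹' T),
      (hTf.preimage Sum.inl_injective.injOn).image _, fun g' h6 h7 => h _ ?_ fun a ha => ?_⟩
    · exact image_mono fun x hx => lt_of_le_of_lt (h6 _) hx
    · obtain ⟨x, hx, rfl⟩ := hT ha
      refine ⟨il x, ⟨x, ?_, rfl⟩, by simpa using hε⟩
      show g' (x 0).1 < _
      rw [h7 _ ⟨x, ha, rfl⟩]
      exact hx
  choose t t1 t2 F t3 t4 using h3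
  let G : ℕ → (ℝ → ℕ) × Set ℝ := fun k => Nat.rec (fun _ => 0, ∅)
    (fun k p => (fun j => if j ∈ p.2 ∪ F p.1 then p.1 j else k + 1, p.2 ∪ F p.1)) k
  have G1 : ∀ k j, (G (k + 1)).1 j = if j ∈ (G k).2 ∪ F (G k).1 then (G k).1 j else k + 1 :=
    fun k j => rfl
  have G2 : ∀ k, (G (k + 1)).2 = (G k).2 ∪ F (G k).1 := fun k => rfl
  have G3 : ∀ k, (G k).2.Finite := by
    intro k
    induction k with
    | zero => exact finite_empty
    | succ k ih => exact ih.union (t3 _)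
  have G4 : ∀ k j, (G k).1 j ≤ k := by
    intro k j
    induction k with
    | zero => exact le_rfl
    | succ k ih => rw [G1]; split_ifs <;> omega
  have G5 : Monotone fun k => (G k).1 := monotone_nat_of_le_succ fun k j => by
    have := G4 k j
    show (G k).1 j ≤ (G (k + 1)).1 j
    rw [G1]; split_ifs <;> omega
  have G6 : ∀ k, ∀ j ∈ F (G k).1, ∀ m, k ≤ m →
      (G m).1 j = (G k).1 j ∧ j ∈ (G m).2 ∪ F (G m).1 := by
    intro k j hj m hm
    induction m, hm using Nat.le_induction with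
    | base => exact ⟨rfl, Or.inr hj⟩
    | succ m _ ih => exact ⟨by rw [G1, if_pos ih.2, ih.1], Or.inl ih.2⟩
  have h4 : ∃ i, l i = n ∧ ∀ k, i ∉ (G k).2 := by
    by_contra h
    push Not at h
    exact hn ((countable_iUnion fun k => (G3 k).countable).mono
      fun i hi => mem_iUnion.mpr (h i hi))
  obtain ⟨i, hi, hi2⟩ := h4
  have G7 : ∀ k, (G k).1 i = k := by
    rintro (_ | k)
    · rfl
    · rw [G1, if_neg (hi2 (k + 1))]
  obtain ⟨A0, hA0⟩ := hc (insert (s i) (range fun k => t (G k).1))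
    (insert_subset (s1 i) (by rintro _ ⟨k, rfl⟩; exact t1 _)) (by
      intro T hT hTf
      have : ∀ᶠ m in atTop, ∀ r ∈ T, A (G m).1 ∈ r := by
        rw [hTf.eventually_all]
        intro r hr
        rcases hT hr with rfl | ⟨k, rfl⟩
        · refine Eventually.of_forall fun m => s4 i _ (image_mono fun _ _ => trivial) ?_
          intro a ha
          obtain ⟨x, -, rfl⟩ := s3 i ha
          refine ⟨il (Function.update x (n + 1) (0, (G m).1 (x 0).1 + 1)), ⟨_, ?_, rfl⟩, ?_⟩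
          · simp
          · rw [hi]
            exact cyl _ _ _ fun j hj => Function.update_of_ne (by omega) _ _
        · filter_upwards [eventually_ge_atTop k] with m hm
          exact t4 _ _ (G5 hm) fun j hj => (G6 k j hj m hm).1
      obtain ⟨m, hm⟩ := this.exists
      exact ⟨_, hm⟩)
  rw [mem_iInter₂] at hA0
  have b1 : infDist (il fun _ => (i, 0)) A0.1 ≤ 3 / 4 :=
    closure_minimal ((s2 i).trans fun _ h => le_of_lt h) (isClosed_le (cont _) continuous_const)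
      (hA0 _ (mem_insert _ _))
  obtain ⟨p, hp, hp2⟩ := (infDist_lt_iff A0.2.2).mp
    (b1.trans_lt (show (3 / 4 : ℝ) < (1 / 2) ^ 0 by norm_num))
  obtain ⟨x, rfl, hx⟩ := near _ p 0 hp2
  have b2 : 2 + (1 / 2) ^ (n + 2) ≤ infDist (ir (n, (G (x (n + 1)).2).1)) A0.1 :=
    closure_minimal ((t2 _).trans fun _ h => le_of_lt h) (isClosed_le continuous_const (cont _))
      (hA0 _ (Or.inr ⟨_, rfl⟩))
  have b3 : infDist (ir (n, (G (x (n + 1)).2).1)) A0.1 ≤ ff (n, (G (x (n + 1)).2).1) x :=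
    infDist_le_dist_of_mem hp
  unfold ff at b3
  rw [← hx 0 le_rfl, if_pos (G7 _).ge] at b3
  linarith [(pw (n + 2)).1]

theorem result :
    (∀ (X : Type u) [MetricSpace X], Pseudocomplete X → Pseudocomplete (Hyp X)) ∧
    (∀ (X : Type u) [MetricSpace X], Subcompact X → Subcompact (Hyp X)) ∧
    (∃ (X : Type) (_ : MetricSpace X), BaseCompact X ∧ ¬ BaseCompact (Hyp X)) :=
  ⟨fun _ _ => pc, fun _ _ => sc, XX, inferInstance, bcX, nbc⟩

end Pool.Agent.Results.MP_091b66_gt.Wijsman
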